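import Pool.Agent.N303.SJ.Stm

set_option autoImplicit false
set_option linter.all false

/-! Project SJ (helper303), part SL: orthogonality on spheres (by helper301). -/

open MeasureTheory Metric Set Filter Topology Measure
open scoped ENNReal RealInnerProductSpace NNReal

namespace Pool.Agent.N301.SJ

open Pool.Agent.N303.SH Pool.Agent.N303.SJ

variable {n : ℕ}

/-- the coefficients -/
noncomputable def cf (g : S n → ℂ) (k : ℕ) (i : Fin (dk n k)) : ℂ :=
  ∫ y, (e n k i y : ℂ) * g y ∂(sg n)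

lemma sum_J (J : Finset ℕ) {M : ℕ} (hM : J ⊆ Finset.range (M + 1)) {A : Type*} [AddCommMonoid A]
    (f : (k : ℕ) → Fin (dk n k) → A) :
    ∑ p : Ix n M, (if (p.1 : ℕ) ∈ J then f p.1 p.2 else 0) = ∑ k ∈ J, ∑ i, f k i := by
  rw [sum_Ix M (fun k i => if k ∈ J then f k i else 0)]
  symm
  rw [← Finset.sum_subset hM]
  · refine Finset.sum_congr rfl fun k hk => Finset.sum_congr rfl fun i _ => ?_
    rw [if_pos hk]
  · intro k _ hk
    refine Finset.sum_eq_zero fun i _ => ?_
    rw [if_neg hk]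

lemma sub_range (J : Finset ℕ) : J ⊆ Finset.range (J.sup id + 1) := by
  intro k hk
  rw [Finset.mem_range]
  have : k ≤ J.sup id := Finset.le_sup (f := id) hk
  omega

/-- the norm of a linear combination -/
lemma comb (J : Finset ℕ) (d : (k : ℕ) → Fin (dk n k) → ℂ) :
    ∫ x, ‖∑ k ∈ J, ∑ i, d k i * (e n k i x : ℂ)‖ ^ 2 ∂(sg n) = ∑ k ∈ J, ∑ i, ‖d k i‖ ^ 2 := by
  have h := comb_sq (n := n) (J.sup id) (fun p => if (p.1 : ℕ) ∈ J then d p.1 p.2 else 0)
  have h1 : ∀ x : S n, ∑ p : Ix n (J.sup id), (if (p.1 : ℕ) ∈ J then d p.1 p.2 else 0) *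
      (ee n (J.sup id) p x : ℂ) = ∑ k ∈ J, ∑ i, d k i * (e n k i x : ℂ) := by
    intro x
    rw [← sum_J J (sub_range J) (fun k i => d k i * (e n k i x : ℂ))]
    refine Finset.sum_congr rfl fun p _ => ?_
    unfold ee
    split_ifs
    · rfl
    · rw [zero_mul]
  simp only [h1] at h
  rw [h, ← sum_J J (sub_range J) (fun k i => ‖d k i‖ ^ 2)]
  refine Finset.sum_congr rfl fun p _ => ?_
  split_ifs
  · rfl
  · simp

lemma cp_eq (k : ℕ) (g : S n → ℂ) (x : S n) : cp k g x = ∑ i, cf g k i * (e n k i x : ℂ) := by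
  unfold cp cf
  exact Finset.sum_congr rfl fun i _ => mul_comm _ _

lemma N2_cp (k : ℕ) (g : S n → ℂ) : N2 (cp k g) = ∑ i, ‖cf g k i‖ ^ 2 := by
  have h := comb (n := n) {k} (cf g)
  simp only [Finset.sum_singleton] at h
  unfold N2
  simp only [cp_eq]
  exact h

lemma N2_blk (J : Finset ℕ) (g : S n → ℂ) : N2 (blk J g) = ∑ k ∈ J, ∑ i, ‖cf g k i‖ ^ 2 := by
  have h := comb (n := n) J (cf g)
  unfold N2 blk
  simp only [cp_eq]
  exact h

lemma bes (J : Finset ℕ) {g : S n → ℂ} (hg : MemLp g 2 (sg n)) :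
    ∑ k ∈ J, ∑ i, ‖cf g k i‖ ^ 2 ≤ N2 g := by
  refine le_trans ?_ (bessel (J.sup id) hg)
  rw [← sum_J J (sub_range J) (fun k i => ‖cf g k i‖ ^ 2)]
  refine Finset.sum_le_sum fun p _ => ?_
  split_ifs
  · exact le_rfl
  · positivity

lemma blk_cont (J : Finset ℕ) (g : S n → ℂ) : Continuous (blk J g) := by
  unfold blk
  exact continuous_finset_sum _ fun k _ => cp_cont k g

lemma memLp_cont {f : S n → ℂ} (hf : Continuous f) : MemLp f 2 (sg n) :=
  hf.memLp_of_hasCompactSupport (HasCompactSupport.of_compactSpace f)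

lemma blk_mem (J : Finset ℕ) (g : S n → ℂ) : MemLp (blk J g) 2 (sg n) := memLp_cont (blk_cont J g)

/-- the coefficients of a block -/
lemma cf_blk (J : Finset ℕ) (g : S n → ℂ) {k : ℕ} (hk : k ∈ J) (i : Fin (dk n k)) :
    cf (blk J g) k i = cf g k i := by
  have h1 : ∀ y, (e n k i y : ℂ) * blk J g y =
      ∑ l ∈ J, ∑ j, cf g l j * ((e n k i y * e n l j y : ℝ) : ℂ) := by
    intro y
    unfold blk
    simp only [cp_eq]
    rw [Finset.mul_sum]
    refine Finset.sum_congr rfl fun l _ => ?_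
    rw [Finset.mul_sum]
    refine Finset.sum_congr rfl fun j _ => ?_
    push_cast
    ring
  have hint : ∀ l j, Integrable (fun y => cf g l j * ((e n k i y * e n l j y : ℝ) : ℂ)) (sg n) := by
    intro l j
    apply Integrable.const_mul
    exact (int_mul (e n k i) (e n l j)).ofReal
  have h2 : ∀ l j, ∫ y, cf g l j * ((e n k i y * e n l j y : ℝ) : ℂ) ∂(sg n) =
      cf g l j * (ip (e n k i) (e n l j) : ℂ) := by
    intro l j
    rw [integral_const_mul, integral_complex_ofReal]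
    rfl
  unfold cf
  rw [show (∫ y, (e n k i y : ℂ) * blk J g y ∂(sg n)) =
      ∫ y, ∑ l ∈ J, ∑ j, cf g l j * ((e n k i y * e n l j y : ℝ) : ℂ) ∂(sg n) from
    integral_congr_ae (Eventually.of_forall h1)]
  rw [integral_finsetSum _ fun l _ => integrable_finsetSum _ fun j _ => hint l j]
  rw [Finset.sum_eq_single k]
  · rw [integral_finsetSum _ fun j _ => hint k j, Finset.sum_eq_single i]
    · rw [h2, e_on, if_pos rfl]
      simp [cf]
    · intro j _ hj
      rw [h2, e_on, if_neg (Ne.symm hj)]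
      simp
    · simp
  · intro l _ hl
    rw [integral_finsetSum _ fun j _ => hint l j]
    refine Finset.sum_eq_zero fun j _ => ?_
    rw [h2, e_ne (Ne.symm hl)]
    simp
  · intro h
    exact absurd hk h

/-- the inner product with a block -/
lemma ip_blk (J : Finset ℕ) {g : S n → ℂ} (hg : Integrable g (sg n)) :
    ∫ y, (starRingEnd ℂ) (blk J g y) * g y ∂(sg n) = ((∑ k ∈ J, ∑ i, ‖cf g k i‖ ^ 2 : ℝ) : ℂ) := by
  have h1 : ∀ y, (starRingEnd ℂ) (blk J g y) * g y =
      ∑ l ∈ J, ∑ j, (starRingEnd ℂ) (cf g l j) * ((e n l j y : ℂ) * g y) := by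
    intro y
    unfold blk
    simp only [cp_eq]
    rw [_root_.map_sum, Finset.sum_mul]
    refine Finset.sum_congr rfl fun l _ => ?_
    rw [_root_.map_sum, Finset.sum_mul]
    refine Finset.sum_congr rfl fun j _ => ?_
    rw [_root_.map_mul, Complex.conj_ofReal]
    ring
  rw [show (∫ y, (starRingEnd ℂ) (blk J g y) * g y ∂(sg n)) =
      ∫ y, ∑ l ∈ J, ∑ j, (starRingEnd ℂ) (cf g l j) * ((e n l j y : ℂ) * g y) ∂(sg n) from
    integral_congr_ae (Eventually.of_forall h1)]
  rw [integral_finsetSum _ fun l _ => integrable_finsetSum _ fun j _ =>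
    (int_cg hg (e n l j)).const_mul _]
  push_cast
  refine Finset.sum_congr rfl fun l _ => ?_
  rw [integral_finsetSum _ fun j _ => (int_cg hg (e n l j)).const_mul _]
  refine Finset.sum_congr rfl fun j _ => ?_
  rw [integral_const_mul]
  change (starRingEnd ℂ) (cf g l j) * cf g l j = _
  rw [mul_comm, Complex.mul_conj, Complex.normSq_eq_norm_sq]
  push_cast
  rfl

lemma N2_sub (J : Finset ℕ) {g : S n → ℂ} (hg : MemLp g 2 (sg n)) :
    N2 (fun x => g x - blk J g x) ≤ N2 g := by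
  have hgi : Integrable g (sg n) := hg.integrable (by norm_num)
  have hB := blk_mem J g
  have i1 : Integrable (fun y => ‖g y‖ ^ 2) (sg n) := hg.integrable_norm_pow two_ne_zero
  have i2 : Integrable (fun y => ‖blk J g y‖ ^ 2) (sg n) := hB.integrable_norm_pow two_ne_zero
  have i3 : Integrable (fun y => (starRingEnd ℂ) (blk J g y) * g y) (sg n) := by
    have hc : Continuous fun y => (starRingEnd ℂ) (blk J g y) :=
      Complex.continuous_conj.comp (blk_cont J g)
    obtain ⟨C, hC⟩ := (isCompact_univ (X := S n)).exists_bound_of_continuousOn hc.continuousOn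
    exact Integrable.bdd_mul (c := C) hgi hc.aestronglyMeasurable
      (Eventually.of_forall fun y => hC y (mem_univ y))
  have h1 : ∀ y, ‖g y - blk J g y‖ ^ 2 = ‖g y‖ ^ 2 + ‖blk J g y‖ ^ 2 -
      2 * ((starRingEnd ℂ) (blk J g y) * g y).re := by
    intro y
    rw [Complex.sq_norm, Complex.sq_norm, Complex.sq_norm, Complex.normSq_sub]
    congr 2
    rw [mul_comm]
  have h2 := N2_blk J g
  have h3 := ip_blk J hgi
  have h4 : ∫ y, ((starRingEnd ℂ) (blk J g y) * g y).re ∂(sg n) = ∑ k ∈ J, ∑ i, ‖cf g k i‖ ^ 2 := by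
    have h5 := integral_re i3
    have h6 : ∫ y, RCLike.re ((starRingEnd ℂ) (blk J g y) * g y) ∂(sg n) =
        (∑ k ∈ J, ∑ i, ‖cf g k i‖ ^ 2 : ℝ) := by
      rw [h5, h3]
      exact Complex.ofReal_re _
    exact h6
  have i4 : Integrable (fun y => ((starRingEnd ℂ) (blk J g y) * g y).re) (sg n) := i3.re
  have h7 : N2 (fun x => g x - blk J g x) = N2 g + N2 (blk J g) -
      2 * ∫ y, ((starRingEnd ℂ) (blk J g y) * g y).re ∂(sg n) := by
    unfold N2
    simp only [h1]
    have e1 := integral_sub (i1.add i2) (i4.const_mul 2)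
    simp only [Pi.add_apply] at e1
    rw [e1, integral_const_mul]
    have e2 := integral_add i1 i2
    rw [e2]
  rw [h7, h4, h2]
  have : 0 ≤ ∑ k ∈ J, ∑ i, ‖cf g k i‖ ^ 2 :=
    Finset.sum_nonneg fun k _ => Finset.sum_nonneg fun i _ => by positivity
  linarith

lemma deg_sub (J : Finset ℕ) {g : S n → ℂ} (hg : Integrable g (sg n)) :
    Deg {l | l ∉ J} (fun x => g x - blk J g x) := by
  intro k hk i
  simp only [mem_setOf_eq, not_not] at hk
  have h1 : ∀ y, (e n k i y : ℂ) * (g y - blk J g y) =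
      (e n k i y : ℂ) * g y - (e n k i y : ℂ) * blk J g y := fun y => mul_sub _ _ _
  simp only [h1]
  rw [integral_sub (int_cg hg _) (int_cg ((blk_mem J g).integrable (by norm_num)) _)]
  have h2 := cf_blk J g hk i
  unfold cf at h2
  rw [h2, sub_self]

variable {c : ℕ}

lemma ft_blk_eq (J : Finset ℕ) (g : S (c + 2) → ℂ) (r : ℝ) (w : S (c + 2)) :
    ft (blk J g) (r • (w : E (c + 2))) =
      ∑ k ∈ J, ∑ i, (Ic c k r * cf g k i) * (e (c + 2) k i w : ℂ) := by
  rw [ft_blk]
  refine Finset.sum_congr rfl fun k _ => ?_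
  rw [ft_cp, cp_eq, Finset.mul_sum]
  exact Finset.sum_congr rfl fun i _ => by ring

lemma N2_ft (J : Finset ℕ) (g : S (c + 2) → ℂ) (r : ℝ) :
    ∫ w, ‖ft (blk J g) (r • (w : E (c + 2)))‖ ^ 2 ∂(sg (c + 2)) =
      ∑ k ∈ J, ∑ i, ‖Ic c k r * cf g k i‖ ^ 2 := by
  simp only [ft_blk_eq]
  exact comb J fun k i => Ic c k r * cf g k i

/-- the coefficients of the transform on a sphere -/
lemma cf_ft {g : S (c + 2) → ℂ} (hg : Integrable g (sg (c + 2))) (r : ℝ) (k : ℕ)
    (i : Fin (dk (c + 2) k)) :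
    cf (fun w : S (c + 2) => ft g (r • (w : E (c + 2)))) k i = Ic c k r * cf g k i := by
  unfold cf ft
  have h1 : ∀ w : S (c + 2), (e (c + 2) k i w : ℂ) * ∫ x : S (c + 2),
      Complex.exp (-(2 * Real.pi * ⟪(x : E (c + 2)), r • (w : E (c + 2))⟫ : ℝ) * Complex.I) * g x
        ∂(sg (c + 2)) = ∫ x : S (c + 2), (Complex.exp (-(2 * Real.pi * ⟪(x : E (c + 2)),
          r • (w : E (c + 2))⟫ : ℝ) * Complex.I)) * ((e (c + 2) k i w : ℂ) * g x) ∂(sg (c + 2)) := by
    intro w
    rw [← integral_const_mul]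
    congr 1
    ext x
    ring
  simp only [h1]
  have hint : Integrable (Function.uncurry fun (w x : S (c + 2)) =>
      (Complex.exp (-(2 * Real.pi * ⟪(x : E (c + 2)), r • (w : E (c + 2))⟫ : ℝ) * Complex.I)) *
        ((e (c + 2) k i w : ℂ) * g x)) ((sg (c + 2)).prod (sg (c + 2))) := by
    have h2 : Integrable (fun z : S (c + 2) × S (c + 2) => (e (c + 2) k i z.1 : ℂ) * g z.2)
        ((sg (c + 2)).prod (sg (c + 2))) := by
      apply Integrable.mul_prod (f := fun w : S (c + 2) => (e (c + 2) k i w : ℂ)) _ hg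
      exact (int_c (e (c + 2) k i)).ofReal
    refine Integrable.bdd_mul (c := 1) h2 ?_ ?_
    · have : Continuous fun z : S (c + 2) × S (c + 2) =>
          Complex.exp (-(2 * Real.pi * ⟪(z.2 : E (c + 2)), r • (z.1 : E (c + 2))⟫ : ℝ) * Complex.I) := by
        fun_prop
      exact this.aestronglyMeasurable
    · refine Eventually.of_forall fun z => ?_
      rw [← Complex.ofReal_neg, Complex.norm_exp_ofReal_mul_I]
  rw [integral_integral_swap hint, ← integral_const_mul]
  congr 1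
  ext x
  have h3 := FHc (on_e c) k (e_mem (n := c + 2) k i) r x
  have h4 : ∀ w : S (c + 2), Complex.exp (-(2 * Real.pi * ⟪(x : E (c + 2)),
      r • (w : E (c + 2))⟫ : ℝ) * Complex.I) * ((e (c + 2) k i w : ℂ) * g x) =
      (Complex.exp (-(2 * Real.pi * ⟪(w : E (c + 2)), r • (x : E (c + 2))⟫ : ℝ) * Complex.I) *
        (e (c + 2) k i w : ℂ)) * g x := by
    intro w
    have : ⟪(x : E (c + 2)), r • (w : E (c + 2))⟫ = ⟪(w : E (c + 2)), r • (x : E (c + 2))⟫ := by
      rw [inner_smul_right, inner_smul_right, real_inner_comm]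
    rw [this]
    ring
  simp only [h4]
  rw [integral_mul_const, h3]
  change Ic c k r * _ * _ = _
  ring

theorem t_sl : Pool.Agent.N303.SJ.S_SL := by
  intro c g hg J
  have hgi : Integrable g (sg (c + 2)) := hg.integrable (by norm_num)
  refine ⟨?_, ?_, ?_, N2_sub J hg, deg_sub J hgi, fun r hr => ⟨?_, ?_⟩⟩
  · rw [N2_blk]
    exact Finset.sum_congr rfl fun k _ => (N2_cp k g).symm
  · rw [N2_blk]
    exact bes J hg
  · exact hg.sub (blk_mem J g)
  · rw [N2_ft]
    refine Finset.sum_congr rfl fun k _ => ?_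
    rw [N2_cp, Finset.mul_sum]
    refine Finset.sum_congr rfl fun i _ => ?_
    rw [norm_mul, mul_pow]
  · rw [N2_ft]
    have hc : Continuous fun w : S (c + 2) => ft g (r • (w : E (c + 2))) :=
      (ft_cont hgi).comp (by fun_prop)
    have h := bes (n := c + 2) J (memLp_cont hc)
    simp only [cf_ft hgi r] at h
    exact h

end Pool.Agent.N301.SJ
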